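import Pool.Agent.H27.L1.H76.GU.Targets
import Pool.Agent.H27.L1.H90.GZ.VLM

/-!
Row ADC of the board gu_modules: the operators are adjoint, for a cusp form and its Fourier
transform.
-/

set_option autoImplicit false

namespace Pool.Agent.H27.L1.H88.GU

open MeasureTheory Pool.Agent.H27.L1.H34.GM Pool.Agent.H27.L1.H34.GZ Pool.Agent.H27.L1.H34.GU Pool.Agent.H27.L1.H76.GU

/-- sums of dominated terms are integrable -/
theorem gen {Ω ι : Type} [MeasurableSpace Ω] (μ : Measure Ω) [Countable ι] (t : ι → Ω → ℂ)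
    (P : ι → Ω → ENNReal)
    (hmeas : ∀ i, AEStronglyMeasurable (t i) μ)
    (hle : ∀ᵐ ω ∂μ, ∀ i, ‖t i ω‖ₑ ≤ P i ω)
    (hPm : AEMeasurable (fun ω => ∑' i, P i ω) μ) (hfin : ∫⁻ ω, ∑' i, P i ω ∂μ ≠ ⊤) :
    Integrable (fun ω => ∑' i, t i ω) μ := by
  have hae : ∀ᵐ ω ∂μ, ∑' i, P i ω < ⊤ := ae_lt_top' hPm hfin
  have hsle : ∀ᵐ ω ∂μ, ∑' i, ‖t i ω‖ₑ ≤ ∑' i, P i ω := by
    filter_upwards [hle] with ω h
    exact ENNReal.tsum_le_tsum h
  have hsum : ∀ᵐ ω ∂μ, Summable fun i => ‖t i ω‖ := by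
    filter_upwards [hsle, hae] with ω h1 h2
    exact tsum_enorm_ne_top_iff_summable_norm.mp (ne_top_of_le_ne_top h2.ne h1)
  refine ⟨?_, ?_⟩
  · refine aestronglyMeasurable_of_tendsto_ae (Filter.atTop : Filter (Finset ι))
      (f := fun A ω => ∑ i ∈ A, t i ω) ?_ ?_
    · intro A
      exact Finset.aestronglyMeasurable_fun_sum A fun i _ => hmeas i
    · filter_upwards [hsum] with ω h
      exact (Summable.of_norm h).hasSum
  · have h1 : ∫⁻ ω, ‖∑' i, t i ω‖ₑ ∂μ ≤ ∫⁻ ω, ∑' i, P i ω ∂μ := by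
      refine lintegral_mono_ae ?_
      filter_upwards [hsle] with ω h
      exact enorm_tsum_le_tsum_enorm.trans h
    exact lt_of_le_of_lt h1 hfin.lt_top

instance (m : ℕ) : Countable (ZM m) := inferInstanceAs (Countable (Fin m → Fin m → ℤ))

/-- the kernel after a shift by an integer matrix -/
theorem kk_shift {m : ℕ} (ρ : ℝ) (g φ η h : Mat m) :
    kk ρ g φ (η * h) = kk (ρ * aN η) g (φ * η) h := by
  have h1 : aN (η * h) = aN η * aN h := by
    unfold aN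
    rw [Matrix.det_mul, abs_mul, Real.mul_rpow (abs_nonneg _) (abs_nonneg _)]
  unfold kk
  rw [h1]
  have h2 : ρ⁻¹ * aN g / (aN η * aN h) = (ρ * aN η)⁻¹ * aN g / aN h := by
    rw [div_eq_mul_inv, div_eq_mul_inv, mul_inv, mul_inv]
    ring
  rw [h2]
  congr 1
  simp only [Matrix.mul_assoc]

theorem mul_inj {m : ℕ} (η : ZM m) (hη : η.det ≠ 0) :
    Function.Injective (fun φ : ZM m => φ * η) := by
  intro a b hab
  have h1 : (a * η) * η.adjugate = (b * η) * η.adjugate := congrArg (fun x => x * η.adjugate) hab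
  rw [Matrix.mul_assoc, Matrix.mul_assoc, Matrix.mul_adjugate, Matrix.mul_smul, Matrix.mul_smul,
    Matrix.mul_one, Matrix.mul_one] at h1
  exact smul_right_injective _ hη h1

/-- the data -/
structure Hyp (m N : ℕ) [NeZero N] (D : Set (V m)) (F : Mat m → VN m N → ℂ) (Ψ : Mat m → ℂ) :
    Prop where
  one_le : 1 ≤ m
  two_le : 1 ≤ N
  meas : MeasurableSet D
  shell : ∀ z ∈ D, 1 ≤ aN (mt z) ∧ aN (mt z) < Real.exp 1
  det : ∀ z ∈ D, (mt z).det ≠ 0
  cont : ∀ x, ContinuousOn (fun g => F g x) {g | g.det ≠ 0}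
  fin : ∑ x, ∫⁻ z in D, Tht (mt z) * ENNReal.ofReal ‖F (mt z) x‖ ∂(hm m) < ⊤
  dec : Dec m Ψ
  tht : T_THT
  alz : T_ALZ
  msr : T_MSR
  gsu : T_GSU

/-- the sum of the values -/
noncomputable def GG {m N : ℕ} [NeZero N] (F : Mat m → VN m N → ℂ) (z : V m) : ENNReal :=
  ∑ x, ‖F (mt z) x‖ₑ

section

variable {m N : ℕ} [NeZero N] {D : Set (V m)} {F : Mat m → VN m N → ℂ} {Ψ : Mat m → ℂ}

theorem Hyp.aesm (h : Hyp m N D F Ψ) (x : VN m N) :
    AEStronglyMeasurable (fun z : V m => F (mt z) x) ((hm m).restrict D) := by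
  have h1 : Continuous (fun z : V m => mt z) := continuous_id
  have h2 : ContinuousOn (fun z : V m => F (mt z) x) D :=
    (h.cont x).comp h1.continuousOn fun z hz => h.det z hz
  exact h2.aestronglyMeasurable h.meas

theorem Hyp.aemG (h : Hyp m N D F Ψ) : AEMeasurable (GG F) ((hm m).restrict D) :=
  Finset.aemeasurable_fun_sum _ fun x _ => (h.aesm x).enorm

theorem Hyp.aemT (h : Hyp m N D F Ψ) :
    AEMeasurable (fun z : V m => Tht (mt z) * GG F z) ((hm m).restrict D) :=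
  (Pool.Agent.H27.L1.H90.GZ.measurable_tht h.gsu m).aemeasurable.mul h.aemG

theorem Hyp.finT (h : Hyp m N D F Ψ) : ∫⁻ z in D, Tht (mt z) * GG F z ∂(hm m) < ⊤ := by
  have h1 : ∫⁻ z in D, Tht (mt z) * GG F z ∂(hm m) =
      ∑ x, ∫⁻ z in D, Tht (mt z) * ENNReal.ofReal ‖F (mt z) x‖ ∂(hm m) := by
    rw [← lintegral_finsetSum' _ fun x _ => ?_]
    · refine lintegral_congr fun z => ?_
      unfold GG
      rw [Finset.mul_sum]
      refine Finset.sum_congr rfl fun x _ => ?_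
      rw [ofReal_norm]
    · exact (Pool.Agent.H27.L1.H90.GZ.measurable_tht h.gsu m).aemeasurable.mul
        (h.aesm x).norm.aemeasurable.ennreal_ofReal
  rw [h1]
  exact h.fin

theorem Hyp.meas_psi (h : Hyp m N D F Ψ) (ρ : ℝ) (φ η : ZM m) :
    Measurable (fun p : V m × V m => Ψ (kk ρ (mt p.1) (cR φ) (cR η * mt p.2))) := by
  obtain ⟨-, -, -, -, -, -, hkkm, hΦm⟩ := h.msr.1 m
  simp only [kk_shift]
  exact (hΦm Ψ h.dec.cont).comp (hkkm (ρ * aN (cR η)) (cR φ * cR η))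

/-- the sum of the kernel -/
noncomputable def SS {m : ℕ} (Ψ : Mat m → ℂ) (ρ : ℝ) (η : ZM m) (p : V m × V m) : ENNReal :=
  ∑' φ : ZM m, ‖Ψ (kk ρ (mt p.1) (cR φ) (cR η * mt p.2))‖ₑ

theorem Hyp.meas_SS (h : Hyp m N D F Ψ) (ρ : ℝ) (η : ZM m) : Measurable (SS Ψ ρ η) :=
  Measurable.tsum fun φ => (h.meas_psi ρ φ η).enorm

theorem Hyp.SS_le (h : Hyp m N D F Ψ) (ρ : ℝ) (hρ : 0 < ρ) (η : ZM m) (hη : η.det ≠ 0) :
    ∃ C : ℝ, ∀ p : V m × V m, p.1 ∈ D → p.2 ∈ D →
      SS Ψ ρ η p ≤ ENNReal.ofReal C * Tht (mt p.1) * Tht (mt p.2) := by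
  obtain ⟨⟨⟨-, hmul⟩, hdet⟩, -⟩ := h.alz m N h.one_le h.two_le
  have h0 : 0 < aN (cR η) := by
    unfold aN
    refine Real.rpow_pos_of_pos (abs_pos.mpr ?_) _
    rw [(hdet η).1]
    exact_mod_cast hη
  obtain ⟨C, -, hC⟩ := h.tht m h.one_le Ψ h.dec (ρ * aN (cR η)) (mul_pos hρ h0)
  refine ⟨C, fun p h1 h2 => ?_⟩
  refine le_trans ?_ (hC (mt p.1) (mt p.2) (h.shell _ h1).1 (h.shell _ h1).2 (h.shell _ h2).1
    (h.shell _ h2).2)
  have h3 : SS Ψ ρ η p = ∑' φ : ZM m, (fun β : ZM m => ENNReal.ofReal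
      ‖Ψ (kk (ρ * aN (cR η)) (mt p.1) (cR β) (mt p.2))‖) (φ * η) := by
    unfold SS
    refine tsum_congr fun φ => ?_
    rw [kk_shift, ← (hmul φ η).1]
    exact (ofReal_norm _).symm
  rw [h3]
  exact ENNReal.tsum_comp_le_tsum_of_injective (mul_inj η hη) _

theorem Hyp.aeD (h : Hyp m N D F Ψ) :
    ∀ᵐ p : V m × V m ∂(((hm m).restrict D).prod ((hm m).restrict D)), p.1 ∈ D ∧ p.2 ∈ D := by
  obtain ⟨-, -, -, -, hsig, -, -, -⟩ := h.msr.1 m
  have := hsig
  have h1 : ∀ᵐ p ∂(((hm m).restrict D).prod ((hm m).restrict D)), p.1 ∈ D :=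
    Measure.quasiMeasurePreserving_fst.ae (ae_restrict_mem h.meas)
  have h2 : ∀ᵐ p ∂(((hm m).restrict D).prod ((hm m).restrict D)), p.2 ∈ D :=
    Measure.quasiMeasurePreserving_snd.ae (ae_restrict_mem h.meas)
  exact h1.and h2

/-- the majorant is integrable -/
theorem Hyp.fin2 (h : Hyp m N D F Ψ) (ρ : ℝ) (hρ : 0 < ρ) (η : ZM m) (hη : η.det ≠ 0) :
    AEMeasurable (fun p : V m × V m => SS Ψ ρ η p * (GG F p.1 * GG F p.2))
      (((hm m).restrict D).prod ((hm m).restrict D)) ∧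
    ∫⁻ p : V m × V m, SS Ψ ρ η p * (GG F p.1 * GG F p.2)
      ∂(((hm m).restrict D).prod ((hm m).restrict D)) ≠ ⊤ := by
  obtain ⟨-, -, -, -, hsig, -, -, -⟩ := h.msr.1 m
  have := hsig
  have hm1 : AEMeasurable (fun p : V m × V m => SS Ψ ρ η p * (GG F p.1 * GG F p.2))
      (((hm m).restrict D).prod ((hm m).restrict D)) :=
    (h.meas_SS ρ η).aemeasurable.mul (h.aemG.comp_fst.mul h.aemG.comp_snd)
  refine ⟨hm1, ?_⟩
  obtain ⟨C, hC⟩ := h.SS_le ρ hρ η hη
  rw [lintegral_prod _ hm1]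
  have h2 : ∫⁻ w in D, ∫⁻ z in D, SS Ψ ρ η (w, z) * (GG F w * GG F z) ∂(hm m) ∂(hm m) ≤
      ∫⁻ w in D, (ENNReal.ofReal C * ∫⁻ z in D, Tht (mt z) * GG F z ∂(hm m)) *
        (Tht (mt w) * GG F w) ∂(hm m) := by
    refine setLIntegral_mono' h.meas fun w hw => ?_
    have h3 : ∫⁻ z in D, SS Ψ ρ η (w, z) * (GG F w * GG F z) ∂(hm m) ≤
        ∫⁻ z in D, (ENNReal.ofReal C * (Tht (mt w) * GG F w)) * (Tht (mt z) * GG F z)
          ∂(hm m) := by
      refine setLIntegral_mono' h.meas fun z hz => ?_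
      calc SS Ψ ρ η (w, z) * (GG F w * GG F z)
          ≤ (ENNReal.ofReal C * Tht (mt w) * Tht (mt z)) * (GG F w * GG F z) :=
            mul_le_mul' (hC (w, z) hw hz) le_rfl
        _ = (ENNReal.ofReal C * (Tht (mt w) * GG F w)) * (Tht (mt z) * GG F z) := by ring
    refine h3.trans (le_of_eq ?_)
    rw [lintegral_const_mul'' _ h.aemT]
    ring
  refine ne_top_of_le_ne_top ?_ h2
  rw [lintegral_const_mul'' _ h.aemT]
  exact ENNReal.mul_ne_top (ENNReal.mul_ne_top ENNReal.ofReal_ne_top h.finT.ne) h.finT.ne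

omit [NeZero N] in
theorem psn_norm (a : ZMod N) : ‖psn N a‖ₑ = 1 := by
  unfold psn ee
  rw [← ofReal_norm]
  have h1 : (2 * Real.pi * Complex.I * ((((a.val : ℝ) / N : ℝ)) : ℂ) : ℂ) =
      ((2 * Real.pi * ((a.val : ℝ) / N) : ℝ) : ℂ) * Complex.I := by
    push_cast
    ring
  rw [h1, Complex.norm_exp_ofReal_mul_I, ENNReal.ofReal_one]

/-- the Fourier transform -/
noncomputable def ww (F : Mat m → VN m N → ℂ) (v : VN m N) (h : V m) : ℂ :=
  ∑ y, psn N (dt v y) * F (mt h) y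

theorem ww_le (v : VN m N) (z : V m) : ‖ww F v z‖ₑ ≤ GG F z := by
  unfold ww GG
  refine (enorm_sum_le _ _).trans (Finset.sum_le_sum fun x _ => ?_)
  rw [enorm_mul, psn_norm, one_mul]

theorem Hyp.aesw (h : Hyp m N D F Ψ) (v : VN m N) :
    AEStronglyMeasurable (ww F v) ((hm m).restrict D) :=
  Finset.aestronglyMeasurable_fun_sum _ fun x _ => (h.aesm x).const_mul _

/-- one term of the sum over the vectors -/
theorem Hyp.int1 (h : Hyp m N D F Ψ) (ρ : ℝ) (hρ : 0 < ρ) (η : ZM m) (hη : η.det ≠ 0)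
    (v x : VN m N) :
    Integrable (fun p : V m × V m => ww F v p.2 *
      ∑' φ : ZM m, (starRingEnd ℂ) (Ψ (kk ρ (mt p.1) (cR φ) (cR η * mt p.2))) *
        (starRingEnd ℂ) (F (mt p.1) (ac N φ x)))
      (((hm m).restrict D).prod ((hm m).restrict D)) := by
  obtain ⟨-, -, -, -, hsig, -, -, -⟩ := h.msr.1 m
  have := hsig
  obtain ⟨hm1, hf1⟩ := h.fin2 ρ hρ η hη
  have e1 : ∀ p : V m × V m, ∑' φ : ZM m, ‖Ψ (kk ρ (mt p.1) (cR φ) (cR η * mt p.2))‖ₑ *
      (GG F p.1 * GG F p.2) = SS Ψ ρ η p * (GG F p.1 * GG F p.2) := by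
    intro p
    rw [ENNReal.tsum_mul_right]
    rfl
  have h1 := gen (((hm m).restrict D).prod ((hm m).restrict D))
    (fun (φ : ZM m) (p : V m × V m) => ww F v p.2 *
      ((starRingEnd ℂ) (Ψ (kk ρ (mt p.1) (cR φ) (cR η * mt p.2))) *
        (starRingEnd ℂ) (F (mt p.1) (ac N φ x))))
    (fun φ p => ‖Ψ (kk ρ (mt p.1) (cR φ) (cR η * mt p.2))‖ₑ * (GG F p.1 * GG F p.2))
    ?_ ?_ ?_ ?_
  · refine h1.congr (Filter.Eventually.of_forall fun p => ?_)
    exact tsum_mul_left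
  · intro φ
    refine AEStronglyMeasurable.mul (h.aesw v).comp_snd (AEStronglyMeasurable.mul ?_ ?_)
    · exact Complex.continuous_conj.comp_aestronglyMeasurable
        (h.meas_psi ρ φ η).aestronglyMeasurable
    · have h2 : AEStronglyMeasurable (fun p : V m × V m => F (mt p.1) (ac N φ x))
          (((hm m).restrict D).prod ((hm m).restrict D)) := (h.aesm _).comp_fst
      exact Complex.continuous_conj.comp_aestronglyMeasurable h2
  · refine Filter.Eventually.of_forall fun p φ => ?_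
    rw [enorm_mul, enorm_mul]
    have h2 : ‖(starRingEnd ℂ) (Ψ (kk ρ (mt p.1) (cR φ) (cR η * mt p.2)))‖ₑ =
        ‖Ψ (kk ρ (mt p.1) (cR φ) (cR η * mt p.2))‖ₑ := by
      rw [← ofReal_norm, ← ofReal_norm, RCLike.norm_conj]
    have h3 : ‖(starRingEnd ℂ) (F (mt p.1) (ac N φ x))‖ₑ ≤ GG F p.1 := by
      rw [← ofReal_norm, RCLike.norm_conj, ofReal_norm]
      exact Finset.single_le_sum (f := fun x => ‖F (mt p.1) x‖ₑ) (fun _ _ => zero_le)
        (Finset.mem_univ (ac N φ x))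
    rw [h2]
    calc ‖ww F v p.2‖ₑ * (‖Ψ (kk ρ (mt p.1) (cR φ) (cR η * mt p.2))‖ₑ *
          ‖(starRingEnd ℂ) (F (mt p.1) (ac N φ x))‖ₑ)
        ≤ GG F p.2 * (‖Ψ (kk ρ (mt p.1) (cR φ) (cR η * mt p.2))‖ₑ * GG F p.1) :=
          mul_le_mul' (ww_le v p.2) (mul_le_mul' le_rfl h3)
      _ = _ := by ring
  · exact hm1.congr (Filter.Eventually.of_forall fun p => (e1 p).symm)
  · rw [lintegral_congr e1]
    exact hf1

open Classical in
/-- the terms of the double integral -/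
noncomputable def ff (H : VN m N → ZM m) (xv : VN m N → VN m N) (F : Mat m → VN m N → ℂ)
    (Ψ : Mat m → ℂ) (ρ : ℝ) (v : VN m N) (g h : V m) : ℂ :=
  if Pr v then ww F v h *
    ∑' φ : ZM m, (starRingEnd ℂ) (Ψ (kk ρ (mt g) (cR φ) (cR (H v) * mt h))) *
      (starRingEnd ℂ) (F (mt g) (ac N φ (xv v))) else 0

theorem Hyp.int2 (h : Hyp m N D F Ψ) (ρ : ℝ) (hρ : 0 < ρ) (H : VN m N → ZM m)
    (xv : VN m N → VN m N) (hF : Frk m N H xv) (v : VN m N) :
    Integrable (fun p : V m × V m => ff H xv F Ψ ρ v p.1 p.2)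
      (((hm m).restrict D).prod ((hm m).restrict D)) := by
  unfold ff
  by_cases hv : Pr v
  · simp only [if_pos hv]
    refine h.int1 ρ hρ (H v) ?_ v (xv v)
    intro h0
    have h1 := hF.det v hv
    rw [h0, Int.natAbs_zero] at h1
    have h2 : 0 < N ^ (m - 1) := Nat.pow_pos (by have := h.two_le; omega)
    omega
  · simp only [if_neg hv]
    exact integrable_zero _ _ _

end

open Classical in
/-- **the operators are adjoint, for a cusp form and its Fourier transform** -/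
theorem pf_ADC (hTHT : T_THT) (hFTH : T_FTH) (hGSU : T_GSU) (hMSR : T_MSR) (hALZ : T_ALZ) :
    T_ADC := by
  intro m N _ T D hS H xv hFrk F lam mu hF Ψ hΨ ρ hρ
  have hDdet : ∀ z ∈ D, (mt z).det ≠ 0 := by
    intro z hz h0
    have h1 := (hS.dom.shell z hz).1
    have h2 := hS.one_le
    unfold aN at h1
    rw [h0, abs_zero, Real.zero_rpow (by positivity)] at h1
    norm_num at h1
  have h : Hyp m N D F Ψ := {
    one_le := hS.one_le
    two_le := hS.two_le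
    meas := hS.dom.meas
    shell := hS.dom.shell
    det := hDdet
    cont := hF.cont
    fin := hFTH m N T D hS F lam mu hF
    dec := hΨ
    tht := hTHT
    alz := hALZ
    msr := hMSR
    gsu := hGSU }
  obtain ⟨-, -, -, -, hsig, -, -, -⟩ := h.msr.1 m
  have := hsig
  change ∫ g in D, ∫ k in D, ∑ v : VN m N, ff H xv F Ψ ρ v g k ∂(hm m) ∂(hm m) = _
  have hint : Integrable (fun p : V m × V m => ∑ v : VN m N, ff H xv F Ψ ρ v p.1 p.2)
      (((hm m).restrict D).prod ((hm m).restrict D)) :=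
    integrable_finsetSum _ fun v _ => h.int2 ρ hρ H xv hFrk v
  rw [integral_integral_swap (f := fun g k : V m => ∑ v : VN m N, ff H xv F Ψ ρ v g k) hint]
  refine integral_congr_ae ?_
  have hae : ∀ᵐ k ∂((hm m).restrict D), ∀ v : VN m N,
      Integrable (fun g => ff H xv F Ψ ρ v g k) ((hm m).restrict D) := by
    rw [ae_all_iff]
    intro v
    exact (h.int2 ρ hρ H xv hFrk v).prod_left_ae
  filter_upwards [hae] with k hk
  rw [integral_finsetSum _ fun v _ => hk v]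
  refine Finset.sum_congr rfl fun v _ => ?_
  unfold ff
  by_cases hv : Pr v
  · simp only [if_pos hv]
    rw [integral_const_mul]
    change ww F v k * _ = ww F v k * _
    congr 1
    unfold opAu
    rw [← integral_conj]
    refine integral_congr_ae (Filter.Eventually.of_forall fun z => ?_)
    change _ = (starRingEnd ℂ) (∑' α : ZM m, Ψ (kk ρ (mt z) (cR α) (cR (H v) * mt k)) *
      F (mt z) (ac N α (xv v)))
    rw [Complex.conj_tsum]
    refine tsum_congr fun α => ?_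
    rw [map_mul]
  · simp only [if_neg hv]
    exact integral_zero _ _

end Pool.Agent.H27.L1.H88.GU
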